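import Pool.Agent.helper40.SU.SpecT

set_option autoImplicit false

open Finset Matrix

namespace Pool.Agent.SU

/-- the binary form -/
theorem TT1_bin (hTB1 : TB1_stmt) (a b c : ℤ) (ha : 0 < a) (hd : a * c - b ^ 2 = 1) :
    ∃ p r : ℤ, a = (a * p + b * r) ^ 2 + r ^ 2 ∧ b = (a * p + b * r) * (b * p + c * r) - r * p ∧
      c = (b * p + c * r) ^ 2 + p ^ 2 := by
  obtain ⟨p, q, r, s, -, h2, h3⟩ := hTB1 a b c ha (by rw [hd]; norm_num)
  rw [hd] at h3
  have h4 : a * p ^ 2 + 2 * b * p * r + c * r ^ 2 = 1 := by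
    by_contra hcon
    have h5 : 2 ≤ a * p ^ 2 + 2 * b * p * r + c * r ^ 2 := by omega
    nlinarith
  refine ⟨p, r, ?_, ?_, ?_⟩
  · linear_combination (-a) * h4 + r ^ 2 * hd
  · linear_combination (-b) * h4 - p * r * hd
  · linear_combination (-c) * h4 + p ^ 2 * hd

theorem TT1_one (hTB1 : TB1_stmt) (B : Matrix (Fin 3) (Fin 3) ℤ) (hs : Bᵀ = B) (hd : B.det = 1)
    (h0 : B 0 0 = 1) (h1 : 0 < B 1 1 - B 0 1 ^ 2) : ∃ N : Matrix (Fin 3) (Fin 3) ℤ, B = Nᵀ * N := by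
  have s1 : B 1 0 = B 0 1 := by
    have := congrFun (congrFun hs 0) 1
    exact this
  have s2 : B 2 0 = B 0 2 := by
    have := congrFun (congrFun hs 0) 2
    exact this
  have s3 : B 2 1 = B 1 2 := by
    have := congrFun (congrFun hs 1) 2
    exact this
  rw [Matrix.det_fin_three, s1, s2, s3, h0] at hd
  obtain ⟨p, r, e1, e2, e3⟩ := TT1_bin hTB1 (B 1 1 - B 0 1 ^ 2) (B 1 2 - B 0 1 * B 0 2)
    (B 2 2 - B 0 2 ^ 2) h1 (by linear_combination hd)
  refine ⟨!![1, B 0 1, B 0 2;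
    0, (B 1 1 - B 0 1 ^ 2) * p + (B 1 2 - B 0 1 * B 0 2) * r,
      (B 1 2 - B 0 1 * B 0 2) * p + (B 2 2 - B 0 2 ^ 2) * r;
    0, -r, p], ?_⟩
  ext i j
  fin_cases i <;> fin_cases j <;>
    simp [Matrix.mul_apply, Fin.sum_univ_three, s1, s2, s3, h0]
  · linear_combination e1
  · linear_combination e2
  · linear_combination e2
  · linear_combination e3

theorem TT1 (hTB1 : TB1_stmt) (hTRD : TRD_stmt) : TT1_stmt := by
  intro A hA
  obtain ⟨U, hU, hU0⟩ := hTRD A hA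
  obtain ⟨hAs, hAd, hAp⟩ := hA
  set B : Matrix (Fin 3) (Fin 3) ℤ := Uᵀ * A * U with hB
  have hUa : U * U.adjugate = 1 := by
    rw [Matrix.mul_adjugate, hU, one_smul]
  have haU : U.adjugate * U = 1 := by
    rw [Matrix.adjugate_mul, hU, one_smul]
  have hBs : Bᵀ = B := by
    rw [hB, Matrix.transpose_mul, Matrix.transpose_mul, Matrix.transpose_transpose, hAs,
      Matrix.mul_assoc]
  have hBd : B.det = 1 := by
    rw [hB, Matrix.det_mul, Matrix.det_mul, Matrix.det_transpose, hU, hAd]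
    norm_num
  have hB1 : 0 < B 1 1 - B 0 1 ^ 2 := by
    have h1 := hAp (U *ᵥ ![-B 0 1, 1, 0]) (by
      intro hcon
      have h2 : U.adjugate *ᵥ (U *ᵥ ![-B 0 1, 1, 0]) = ![-B 0 1, 1, 0] := by
        rw [Matrix.mulVec_mulVec, haU, Matrix.one_mulVec]
      rw [hcon, Matrix.mulVec_zero] at h2
      have h3 := congrFun h2 1
      simp at h3)
    have h2 : (U *ᵥ ![-B 0 1, 1, 0]) ⬝ᵥ (A *ᵥ (U *ᵥ ![-B 0 1, 1, 0])) =
        ![-B 0 1, 1, 0] ⬝ᵥ (B *ᵥ ![-B 0 1, 1, 0]) := by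
      rw [hB, ← Matrix.mulVec_mulVec, ← Matrix.mulVec_mulVec, Matrix.dotProduct_mulVec _ Uᵀ,
        Matrix.vecMul_transpose]
    rw [h2] at h1
    have s1 : B 1 0 = B 0 1 := by
      have := congrFun (congrFun hBs 0) 1
      exact this
    simp [dotProduct, Matrix.mulVec, Fin.sum_univ_three, s1, hU0] at h1
    nlinarith
  obtain ⟨N, hN⟩ := TT1_one hTB1 B hBs hBd hU0 hB1
  refine ⟨N * U.adjugate, ?_⟩
  rw [Matrix.transpose_mul]
  have h3 : A = U.adjugateᵀ * B * U.adjugate := by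
    have h4 : U.adjugateᵀ * Uᵀ = 1 := by
      rw [← Matrix.transpose_mul, hUa, Matrix.transpose_one]
    rw [hB]
    have h5 : U.adjugateᵀ * (Uᵀ * A * U) * U.adjugate =
        (U.adjugateᵀ * Uᵀ) * A * (U * U.adjugate) := by
      simp only [Matrix.mul_assoc]
    rw [h5, h4, hUa, Matrix.one_mul, Matrix.mul_one]
  rw [h3, hN]
  simp only [Matrix.mul_assoc]

end Pool.Agent.SU
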